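import Pool.Agent.Work.MP_a8f287_co.C3.K4.K5F
import Pool.Agent.Work.MP_a8f287_co.Bd.T16

/-!
Good sets of rank five with a `K4` plane: kernel checks.
-/

namespace Pool.Agent.WW

theorem ksStep_append (p : ℕ) (L1 L2 L' : List ℕ) (h1 : ksStep p L1 L' = true)
    (h2 : ksStep p L2 L' = true) : ksStep p (L1 ++ L2) L' = true := by
  unfold ksStep at *
  rw [List.all_append, h1, h2]
  rfl

theorem ks_ok : (ksStep 1 ks0 ks1 && ksStep 2 ks1 ks2 && ksStep 4 ks2 ks3 && ksStep 8 ks3 ks4 &&
    ksStep 16 ks4 sub5) = true := by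
  have h1 : ksStep 16 (ks4.drop 22) sub5 = true := by
    have h := ksStep_append 16 _ _ _ ks_b ks_c
    rwa [List.take_append_drop] at h
  have h2 : ksStep 16 ks4 sub5 = true := by
    have h := ksStep_append 16 _ _ _ ks_a h1
    rwa [List.take_append_drop] at h
  rw [ks_low, h2]
  rfl

theorem hyp5_ok : hyp5 =
    (List.range 32).map (fun f => mask ((List.range 32).filter fun n => !parC (f &&& n))) := by
  decide +kernel

theorem k5NV_ok : k5NV.all nvChk = true := by decide +kernel

end Pool.Agent.WW
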