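import Pool.Agent.Work.MP_a8f287_co.Bd.T17
import Pool.Agent.Work.MP_a8f287_co.C4.R5Prop

/-! Kernel checks, compiled separately. -/

namespace Pool.Agent.WW

/-- the mask translated by `c` -/
def trs5 (c m : ℕ) : ℕ := mask ((List.range 32).filter fun n => m.testBit (n ^^^ c))

/-- step from the codes below `p` to the codes below `2 * p` -/
def ksStep (p : ℕ) (L L' : List ℕ) : Bool :=
  L.all fun m => L'.contains m &&
    ((List.range 32).all fun c => decide (c < p) || decide (2 * p ≤ c) || L'.contains (m ||| trs5 c m))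

/-- the proper subspaces which contain `g` -/
def prp (g : ℕ) : List ℕ := sub5.filter fun A => A.testBit g && A != 4294967295

/-- `g` is contractible in the mask `M` -/
def ctrM (M g : ℕ) : Bool :=
  (prp g).all fun A => (prp g).all fun B =>
    ((M &&& A) ||| (M &&& B)) != M || decide (16 ≤ popM (A &&& B))

/-- traces at `g` -/
def trM (M Γ X g : ℕ) : Bool :=
  let I := M ^^^ (M &&& Γ)
  (prp g).all fun Q => ((prp g).filter fun R => decide (popM R ≤ 8)).all fun R =>
    ((I &&& Q) ||| (I &&& R)) != I || (I &&& Q) == I ||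
    (hyp5.any fun Z => ((((I ^^^ (I &&& Q)) ||| Γ) &&& Z) == ((I ^^^ (I &&& Q)) ||| Γ)) &&
      !Z.testBit g) ||
    (popM R == 8 && ((X &&& (Q ||| R)) == 0 ||
      (decide (16 ≤ popM Q) && (hyp5.any fun Z =>
        (((I ^^^ (I &&& R)) &&& Z) == (I ^^^ (I &&& R))) && (Q &&& Z) != Q))))

/-- check of an entry of the table -/
def k5Ent (e : ℕ × ℕ × List (ℕ × ℕ)) : Bool :=
  e.2.2.all fun p => e.1.testBit p.1 && !e.2.1.testBit p.1 && ctrM e.1 p.1 &&
    trM e.1 e.2.1 p.2 p.1

end Pool.Agent.WW
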