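import Pool.Agent.Work.MP_a8f287_co.C3.K4.K5A
import Pool.Agent.Work.MP_a8f287_co.Bd.T19

/-! Kernel checks, compiled separately. -/

namespace Pool.Agent.WW

theorem ks_low : (ksStep 1 ks0 ks1 && ksStep 2 ks1 ks2 && ksStep 4 ks2 ks3 && ksStep 8 ks3 ks4) = true := by
  decide +kernel

theorem ks_a : ksStep 16 (ks4.take 22) sub5 = true := by decide +kernel

end Pool.Agent.WW
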