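import Pool.Agent.Work.MP_a8f287_co.C3.K4.K5C

/-! Kernel checks, compiled separately. -/

namespace Pool.Agent.WW

theorem ks_c : ksStep 16 ((ks4.drop 22).drop 22) sub5 = true := by decide +kernel

end Pool.Agent.WW
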