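import Pool.Agent.Work.MP_a8f287_co.C3.K4.K5D

/-! Kernel checks, compiled separately. -/

namespace Pool.Agent.WW

theorem k5Free_ok : (k5Free.all fun M => sub5.all fun Γ =>
    popM Γ != 8 || decide (popM (M &&& Γ) < 6)) = true := by decide +kernel

theorem k5_cases : (r5L.all fun M => k5L.contains M || k5Free.contains M ||
    (k5NV.any fun e => e.1 == M)) = true := by decide +kernel

end Pool.Agent.WW
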