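import Pool.Agent.Work.MP_a8f287_co.C3.K4.K5E

/-! Kernel checks, compiled separately. -/

namespace Pool.Agent.WW

theorem k5T_ok : k5T.all k5Ent = true := by decide +kernel

theorem k5T_all : (k5L.all fun M => decide (popM M ≤ 14) && sub5.all fun Γ =>
    popM Γ != 8 || decide (popM (M &&& Γ) < 6) ||
    (k5T.any fun e => e.1 == M && e.2.1 == Γ &&
      (List.range 32).all fun x => !(M &&& Γ).testBit x ||
        e.2.2.any fun p => p.2.testBit x)) = true := by decide +kernel

end Pool.Agent.WW
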